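import Pool.Agent.R731.BE.Main

/-!
# The fields `X = a₁E₁ + a₂E₂` do not minimise the energy on Berger spheres (MP_627409_gt, Q1)
-/

set_option autoImplicit false

namespace Pool.Agent.Results.MP_627409_gt.NotMinimising

open Pool.Agent.R731.BE

/-- For every `μ > (33 + 3√57)/32 ≈ 1.739` there is a unit vector field `V` on `(S³, g_μ)` whose
energy is strictly smaller than `(3/2 + μ + 2(1-μ)/μ) vol(S³, g_μ)`, and strictly smaller than the
energy of all fields `X = a E₁ + b E₂`, `a² + b² = 1`. Here the energy is computed with the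
Levi-Civita connection of `g_μ` (any map with the defining properties of the Levi-Civita
connection; such a map exists). -/
theorem result (μ : ℝ) (hμ : (33 + 3 * √57) / 32 < μ) :
    1 < μ ∧ (∃ D, IsLeviCivita μ D) ∧ ∃ V, IsUnitField μ V ∧ ∀ D, IsLeviCivita μ D →
      energy μ D V < (3 / 2 + μ + 2 * ((1 - μ) / μ)) * vol μ ∧
      ∀ a b : ℝ, a ^ 2 + b ^ 2 = 1 →
        energy μ D V < energy μ D (fun x => a • J1 x + b • J2 x) :=
  Pool.Agent.R731.BE.main μ hμ

end Pool.Agent.Results.MP_627409_gt.NotMinimising
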